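import Pool.Agent.H28.GU.TargetsC

/-!
# Row ST: the step from `d + 1` to `d` variables
-/

set_option autoImplicit false

open Finset

namespace Pool.Agent.H81.GU

open Pool.Agent.H28.GU

section average

open Classical in
/-- averaging -/
theorem avg {α : Type} [Fintype α] (m : α → ℝ) (K θ : ℝ) (hK : 0 < K) (hm : ∀ a, m a ≤ K)
    (hθ : 0 ≤ θ) (h : θ * (Fintype.card α : ℝ) * K ≤ ∑ a : α, m a) :
    ∃ A : Finset α, θ / 2 * (Fintype.card α : ℝ) ≤ (A.card : ℝ) ∧ ∀ a ∈ A, θ / 2 * K ≤ m a := by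
  refine ⟨Finset.univ.filter (fun a : α => θ / 2 * K ≤ m a), ?_, fun a ha =>
    (Finset.mem_filter.1 ha).2⟩
  set A := Finset.univ.filter (fun a : α => θ / 2 * K ≤ m a) with hA
  have h1 : ∑ a : α, m a ≤ ∑ a : α, ((if a ∈ A then K else 0) + θ / 2 * K) := by
    refine Finset.sum_le_sum fun a _ => ?_
    by_cases ha : a ∈ A
    · rw [if_pos ha]
      have h3 : 0 ≤ θ / 2 * K := by positivity
      linarith [hm a]
    · rw [if_neg ha, zero_add]
      rw [hA, Finset.mem_filter, not_and] at ha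
      exact (not_le.1 (ha (Finset.mem_univ _))).le
  rw [Finset.sum_add_distrib, Finset.sum_const, Finset.card_univ, nsmul_eq_mul,
    ← Finset.sum_filter, Finset.sum_const, nsmul_eq_mul, Finset.filter_mem_eq_inter,
    Finset.univ_inter] at h1
  have h4 : (θ / 2 * (Fintype.card α : ℝ)) * K ≤ A.card * K := by nlinarith [h, h1]
  exact le_of_mul_le_mul_right h4 hK

open Classical in
/-- exchanging sums -/
theorem sum_swap {α β : Type} [Fintype α] [Fintype β] (R : α → Finset β) (R' : β → Finset α)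
    (h : ∀ a b, b ∈ R a ↔ a ∈ R' b) :
    ∑ a : α, ((R a).card : ℝ) = ∑ b : β, ((R' b).card : ℝ) := by
  have h1 : ∀ a, ((R a).card : ℝ) = ∑ b : β, if b ∈ R a then (1 : ℝ) else 0 := by
    intro a
    simp
  have h2 : ∀ b, ((R' b).card : ℝ) = ∑ a : α, if a ∈ R' b then (1 : ℝ) else 0 := by
    intro b
    simp
  simp only [h1, h2]
  rw [Finset.sum_comm]
  simp only [h]

end average

theorem aff_cons {q d : ℕ} (c : Fin (d + 1) → ZMod q) (a t : ZMod q) (s : Fin d → ZMod q) :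
    aff c a (Fin.cons t s) = Fin.cons (c 0 + a * t) (aff (Fin.tail c) a s) := by
  funext i
  refine Fin.cases ?_ (fun i => ?_) i
  · simp [aff]
  · simp [aff, Fin.tail]

theorem mix_empty {d : ℕ} {G : Type} (s b : Fin d → G) : mix ∅ s b = s := by
  funext i
  simp [mix]

open Classical in
theorem mix_insert {d : ℕ} {G : Type} (μ : Finset (Fin d)) (u t : G) (s b : Fin d → G) :
    mix (insert 0 (μ.map (Fin.succEmb d))) (Fin.cons u s : Fin (d + 1) → G) (Fin.cons t b) =
      Fin.cons t (mix μ s b) := by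
  funext i
  refine Fin.cases ?_ (fun i => ?_) i
  · simp [mix]
  · have h1 : (Fin.succ i ∈ insert 0 (μ.map (Fin.succEmb d))) ↔ i ∈ μ := by
      rw [Finset.mem_insert, Finset.mem_map]
      constructor
      · rintro (h | ⟨j, hj, h⟩)
        · exact absurd h (Fin.succ_ne_zero i)
        · rw [← Fin.succ_injective _ h]
          exact hj
      · intro h
        exact Or.inr ⟨i, h, rfl⟩
    simp only [mix, Fin.cons_succ, h1]

theorem frei_slice {q d : ℕ} {S : Finset (Fin (d + 1) → ZMod q)}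
    {τ : (Fin (d + 1) → ZMod q) → ZMod q} (h : FreiAt S τ 0) (v : Fin d → ZMod q)
    (Z : Finset (ZMod q)) (hZ : ∀ t, t ∈ Z → (Fin.cons t v : Fin (d + 1) → ZMod q) ∈ S) :
    Frei Z (fun t => τ (Fin.cons t v)) := by
  intro x y hx hy hxy
  have h1 := h (Fin.cons 0 v) x y
  simp only [Fin.update_cons_zero] at h1
  exact h1 (fun j => hZ _ (hx j)) (fun j => hZ _ (hy j)) hxy

open Classical in
/-- the number of elements of `F` by fibres -/
theorem card_fibre {q d : ℕ} [NeZero q]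
    (F : Finset ((Fin (d + 1) → ZMod q) × (Fin (d + 1) → ZMod q)))
    (Ff : (Fin d → ZMod q) × (Fin d → ZMod q) → Finset (ZMod q × ZMod q))
    (hFf : ∀ y b, b ∈ Ff y ↔ ((Fin.cons b.1 y.1 : Fin (d + 1) → ZMod q),
      (Fin.cons b.2 y.2 : Fin (d + 1) → ZMod q)) ∈ F) :
    (F.card : ℝ) ≤ ∑ y : (Fin d → ZMod q) × (Fin d → ZMod q), ((Ff y).card : ℝ) := by
  have h1 : F.card = ∑ y : (Fin d → ZMod q) × (Fin d → ZMod q),
      (F.filter (fun z => (Fin.tail z.1, Fin.tail z.2) = y)).card :=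
    Finset.card_eq_sum_card_fiberwise (fun _ _ => Finset.mem_coe.2 (Finset.mem_univ _))
  rw [h1]
  push_cast
  refine Finset.sum_le_sum fun y _ => ?_
  have h2 : (F.filter (fun z => (Fin.tail z.1, Fin.tail z.2) = y)).card ≤ (Ff y).card := by
    refine Finset.card_le_card_of_injOn (fun z => (z.1 0, z.2 0)) ?_ ?_
    · intro z hz
      rw [Finset.mem_coe, Finset.mem_filter] at hz
      rw [Finset.mem_coe, hFf]
      obtain ⟨hz1, rfl⟩ := hz
      simp only [Fin.cons_self_tail]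
      exact hz1
    · intro z hz z' hz' hzz
      rw [Finset.mem_coe, Finset.mem_filter] at hz hz'
      have e1 : Fin.tail z.1 = Fin.tail z'.1 := congrArg Prod.fst (hz.2.trans hz'.2.symm)
      have e2 : Fin.tail z.2 = Fin.tail z'.2 := congrArg Prod.snd (hz.2.trans hz'.2.symm)
      have e3 : z.1 0 = z'.1 0 := congrArg Prod.fst hzz
      have e4 : z.2 0 = z'.2 0 := congrArg Prod.snd hzz
      apply Prod.ext
      · rw [← Fin.cons_self_tail z.1, ← Fin.cons_self_tail z'.1, e1, e3]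
      · rw [← Fin.cons_self_tail z.2, ← Fin.cons_self_tail z'.2, e2, e4]
  exact_mod_cast h2

/-- the two projections of a dense set of pairs are dense -/
theorem card_proj {q : ℕ} [NeZero q] (F : Finset (ZMod q × ZMod q)) (f : ℝ)
    (h : f * (q : ℝ) ^ 2 ≤ (F.card : ℝ)) :
    f * q ≤ ((F.image Prod.fst).card : ℝ) ∧ f * q ≤ ((F.image Prod.snd).card : ℝ) := by
  have hqR : (0 : ℝ) < q := by exact_mod_cast Nat.pos_of_ne_zero (NeZero.ne q)
  constructor
  · have h1 : F.card ≤ (F.image Prod.fst).card * q := by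
      calc F.card ≤ (F.image Prod.fst ×ˢ (Finset.univ : Finset (ZMod q))).card :=
            Finset.card_le_card fun b hb => Finset.mem_product.2
              ⟨Finset.mem_image_of_mem _ hb, Finset.mem_univ _⟩
        _ = _ := by rw [Finset.card_product, Finset.card_univ, ZMod.card]
    have h2 : (F.card : ℝ) ≤ (F.image Prod.fst).card * q := by exact_mod_cast h1
    have h3 : f * q * q ≤ ((F.image Prod.fst).card : ℝ) * q := by
      calc f * q * q = f * (q : ℝ) ^ 2 := by ring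
        _ ≤ _ := h.trans h2
    exact le_of_mul_le_mul_right h3 hqR
  · have h1 : F.card ≤ (F.image Prod.snd).card * q := by
      calc F.card ≤ ((Finset.univ : Finset (ZMod q)) ×ˢ F.image Prod.snd).card :=
            Finset.card_le_card fun b hb => Finset.mem_product.2
              ⟨Finset.mem_univ _, Finset.mem_image_of_mem _ hb⟩
        _ = _ := by rw [Finset.card_product, Finset.card_univ, ZMod.card, mul_comm]
    have h2 : (F.card : ℝ) ≤ (F.image Prod.snd).card * q := by exact_mod_cast h1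
    have h3 : f * q * q ≤ ((F.image Prod.snd).card : ℝ) * q := by
      calc f * q * q = f * (q : ℝ) ^ 2 := by ring
        _ ≤ _ := h.trans h2
    exact le_of_mul_le_mul_right h3 hqR

theorem pf_ST (hCO : T_CO) : T_ST := by
  classical
  intro f B k hf
  obtain ⟨f1, hf1, hco⟩ := hCO (f / 2) B k (by positivity)
  refine ⟨f * f1 / 4, by positivity, ?_⟩
  intro d q _ W _ a p κ Q r c S τ F hW hQ hp haQ hFr hF hmix hrel
  have hq : 0 < q := Nat.pos_of_ne_zero (NeZero.ne q)
  have hqR : (0 : ℝ) < q := by exact_mod_cast hq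
  have hcα : (Fintype.card ((Fin d → ZMod q) × (Fin d → ZMod q)) : ℝ) = (q : ℝ) ^ (2 * d) := by
    rw [Fintype.card_prod, Fintype.card_fun, ZMod.card, Fintype.card_fin]
    push_cast
    ring
  have hcβ : (Fintype.card (ZMod q × ZMod q) : ℝ) = (q : ℝ) ^ 2 := by
    rw [Fintype.card_prod, ZMod.card]
    push_cast
    ring
  have hc4 : (Fintype.card (Fin 4 → ZMod q) : ℝ) = (q : ℝ) ^ 4 := by
    rw [Fintype.card_fun, ZMod.card, Fintype.card_fin]
    push_cast
    ring
  -- the fibres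
  obtain ⟨Ff, hFf⟩ : ∃ Ff : (Fin d → ZMod q) × (Fin d → ZMod q) → Finset (ZMod q × ZMod q),
      ∀ y b, b ∈ Ff y ↔ ((Fin.cons b.1 y.1 : Fin (d + 1) → ZMod q),
        (Fin.cons b.2 y.2 : Fin (d + 1) → ZMod q)) ∈ F :=
    ⟨fun y => Finset.univ.filter (fun b => ((Fin.cons b.1 y.1 : Fin (d + 1) → ZMod q),
        (Fin.cons b.2 y.2 : Fin (d + 1) → ZMod q)) ∈ F), fun y b => by
          rw [Finset.mem_filter]
          exact ⟨fun h => h.2, fun h => ⟨Finset.mem_univ _, h⟩⟩⟩
  obtain ⟨Y, hY, hY2⟩ := avg (fun y => ((Ff y).card : ℝ)) ((q : ℝ) ^ 2) f (by positivity)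
    (fun y => by
      rw [← hcβ]
      exact_mod_cast Finset.card_le_univ _) hf.le (by
    rw [hcα]
    have h2 : f * (q : ℝ) ^ (2 * d) * (q : ℝ) ^ 2 = f * (q : ℝ) ^ (2 * (d + 1)) := by
      ring
    rw [h2]
    exact hF.trans (card_fibre F Ff hFf))
  rw [hcα] at hY
  -- good pairs
  obtain ⟨Gx, hGx⟩ : ∃ Gx : (Fin 4 → ZMod q) → Finset ((Fin d → ZMod q) × (Fin d → ZMod q)),
      ∀ x y, y ∈ Gx x ↔ (∀ w, ∀ μ : Finset (Fin d),
        mix μ (aff (Fin.tail c) (a w) y.1) y.2 ∈ Pool.Agent.H28.GU.slice S x) ∧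
        ∑ w, κ w * a w * sgn4 τ x (aff (Fin.tail c) (a w) y.1) = 0 :=
    ⟨fun x => Finset.univ.filter (fun y => (∀ w, ∀ μ : Finset (Fin d),
        mix μ (aff (Fin.tail c) (a w) y.1) y.2 ∈ Pool.Agent.H28.GU.slice S x) ∧
        ∑ w, κ w * a w * sgn4 τ x (aff (Fin.tail c) (a w) y.1) = 0), fun x y => by
          rw [Finset.mem_filter]
          exact ⟨fun h => h.2, fun h => ⟨Finset.mem_univ _, h⟩⟩⟩
  obtain ⟨Gy, hGy⟩ : ∃ Gy : (Fin d → ZMod q) × (Fin d → ZMod q) → Finset (Fin 4 → ZMod q),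
      ∀ x y, y ∈ Gx x ↔ x ∈ Gy y :=
    ⟨fun y => Finset.univ.filter (fun x => y ∈ Gx x), fun x y => by
          rw [Finset.mem_filter]
          exact ⟨fun h => ⟨Finset.mem_univ _, h⟩, fun h => h.2⟩⟩
  have hgood : ∀ y ∈ Y, f1 * (q : ℝ) ^ 4 ≤ ((Gy y).card : ℝ) := by
    rintro ⟨s', b'⟩ hy
    obtain ⟨hEc, hDc⟩ := card_proj (Ff (s', b')) (f / 2) (hY2 _ hy)
    obtain ⟨E, hE⟩ : ∃ E : Finset (ZMod q), E = (Ff (s', b')).image Prod.fst := ⟨_, rfl⟩
    obtain ⟨D, hD⟩ : ∃ D : Finset (ZMod q), D = (Ff (s', b')).image Prod.snd := ⟨_, rfl⟩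
    rw [← hE] at hEc
    rw [← hD] at hDc
    have hEm : ∀ t ∈ E, ∃ b0, ((Fin.cons t s' : Fin (d + 1) → ZMod q),
        (Fin.cons b0 b' : Fin (d + 1) → ZMod q)) ∈ F := by
      intro t ht
      rw [hE] at ht
      obtain ⟨b, hb, rfl⟩ := Finset.mem_image.1 ht
      exact ⟨b.2, (hFf _ b).1 hb⟩
    have hDm0 : ∀ t ∈ D, ∃ s0, ((Fin.cons s0 s' : Fin (d + 1) → ZMod q),
        (Fin.cons t b' : Fin (d + 1) → ZMod q)) ∈ F := by
      intro t ht
      rw [hD] at ht
      obtain ⟨b, hb, rfl⟩ := Finset.mem_image.1 ht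
      exact ⟨b.1, (hFf _ b).1 hb⟩
    obtain ⟨Z, hZ⟩ : ∃ Z : W → Finset (ZMod q), ∀ w t, t ∈ Z w ↔
        (Fin.cons t (aff (Fin.tail c) (a w) s') : Fin (d + 1) → ZMod q) ∈ S :=
      ⟨fun w => Finset.univ.filter (fun t =>
        (Fin.cons t (aff (Fin.tail c) (a w) s') : Fin (d + 1) → ZMod q) ∈ S), fun w t => by
          rw [Finset.mem_filter]
          exact ⟨fun h => h.2, fun h => ⟨Finset.mem_univ _, h⟩⟩⟩
    -- mixtures with the absolute value `t ∈ D` in the first variable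
    have hDm : ∀ t ∈ D, ∀ w, ∀ μ : Finset (Fin d),
        (Fin.cons t (mix μ (aff (Fin.tail c) (a w) s') b') : Fin (d + 1) → ZMod q) ∈ S := by
      intro t ht w μ
      obtain ⟨s0, hs0⟩ := hDm0 t ht
      have h1 := hmix _ hs0 w (insert 0 (μ.map (Fin.succEmb d)))
      simp only [aff_cons] at h1
      rwa [mix_insert] at h1
    have hCO1 := hco q W a p κ Q (c 0) r Z
      (fun w t => τ (Fin.cons t (aff (Fin.tail c) (a w) s'))) E D hW hQ hp haQ
      (fun w => frei_slice (hFr 0) _ (Z w) fun t ht => (hZ w t).1 ht)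
      (fun w t ht => by
        obtain ⟨b0, hb0⟩ := hEm t ht
        have h1 := hmix _ hb0 w ∅
        rw [mix_empty] at h1
        simp only [aff_cons] at h1
        exact (hZ w _).2 h1)
      (fun w t ht => by
        have h1 := hDm t ht w ∅
        rw [mix_empty] at h1
        exact (hZ w _).2 h1) hEc hDc
      (fun t ht => by
        obtain ⟨b0, hb0⟩ := hEm t ht
        have h1 := hrel _ hb0
        simp only [aff_cons] at h1
        exact h1)
    refine hCO1.trans ?_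
    refine Nat.cast_le.2 (Finset.card_le_card fun x hx => ?_)
    rw [Finset.mem_filter] at hx
    rw [← hGy, hGx]
    refine ⟨?_, hx.2.2⟩
    intro w μ
    rw [Pool.Agent.H28.GU.slice, Finset.mem_filter]
    exact ⟨Finset.mem_univ _, fun j => hDm (x j) (hx.2.1 j) w μ⟩
  -- second averaging
  obtain ⟨X, hX, hX2⟩ := avg (fun x => ((Gx x).card : ℝ)) ((q : ℝ) ^ (2 * d)) (f * f1 / 2)
    (by positivity) (fun x => by
      rw [← hcα]
      exact_mod_cast Finset.card_le_univ _) (by positivity) (by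
    rw [hc4, sum_swap Gx Gy hGy]
    have h1 : ∑ y ∈ Y, f1 * (q : ℝ) ^ 4 ≤ ∑ y, ((Gy y).card : ℝ) :=
      (Finset.sum_le_sum hgood).trans (Finset.sum_le_sum_of_subset_of_nonneg
        (Finset.subset_univ _) fun _ _ _ => Nat.cast_nonneg _)
    rw [Finset.sum_const, nsmul_eq_mul] at h1
    have h2 : f / 2 * (q : ℝ) ^ (2 * d) * (f1 * (q : ℝ) ^ 4) ≤ Y.card * (f1 * (q : ℝ) ^ 4) :=
      mul_le_mul_of_nonneg_right hY (by positivity)
    have h3 : f * f1 / 2 * (q : ℝ) ^ 4 * (q : ℝ) ^ (2 * d) =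
        f / 2 * (q : ℝ) ^ (2 * d) * (f1 * (q : ℝ) ^ 4) := by ring
    rw [h3]
    exact h2.trans h1)
  rw [hc4, show f * f1 / 2 / 2 = f * f1 / 4 by ring] at hX
  refine ⟨X, hX, ?_⟩
  intro x hx
  have h4 := hX2 x hx
  rw [show f * f1 / 2 / 2 = f * f1 / 4 by ring] at h4
  exact ⟨Gx x, h4, fun z hz => ((hGx x z).1 hz).1, fun z hz => ((hGx x z).1 hz).2⟩

end Pool.Agent.H81.GU
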